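import Pool.Agent.Helper53.CTG.Goals

/-!
# PROJECT CTG (MP_8b4d68_lc), packet AS1: asymptotics
-/

namespace Pool.Agent.Helper37.CTG

open Pool.Agent.Helper53.CTG

theorem log_Pb (b : ℕ) (hb : 1 ≤ b) : Nat.log 2 (Pb b) ≤ Nat.log 2 b + 6 := by
  have h1 : Pb b ≤ b * 2 ^ 6 := by
    unfold Pb Rb
    omega
  calc Nat.log 2 (Pb b) ≤ Nat.log 2 (b * 2 ^ 6) := Nat.log_mono_right h1
    _ = Nat.log 2 b + 6 := by
      rw [Nat.pow_succ, Nat.pow_succ, Nat.pow_succ, Nat.pow_succ, Nat.pow_succ, Nat.pow_one]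
      simp only [← mul_assoc]
      rw [Nat.log_mul_base (by norm_num) (by positivity), Nat.log_mul_base (by norm_num) (by positivity),
        Nat.log_mul_base (by norm_num) (by positivity), Nat.log_mul_base (by norm_num) (by positivity),
        Nat.log_mul_base (by norm_num) (by positivity), Nat.log_mul_base (by norm_num) (by omega)]

theorem log_Gb (b : ℕ) : Nat.log 2 (Gb b) ≤ 7 := by
  have h1 : Pb b / Rb b ≤ 200 := by
    have h2 : Pb b ≤ 200 * Rb b := by
      unfold Pb Rb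
      omega
    rcases Nat.eq_zero_or_pos (Rb b) with h3 | h3
    · rw [h3, Nat.div_zero]
      exact Nat.zero_le _
    · exact Nat.div_le_of_le_mul (by rw [mul_comm]; exact h2)
  have h2 : Gb b < 2 ^ 8 := by
    unfold Gb
    omega
  have h0 : Gb b ≠ 0 := Nat.succ_ne_zero _
  have h3 : Nat.log 2 (Gb b) < 8 := Nat.log_lt_of_lt_pow h0 h2
  omega

theorem Et_le (C N q b c : ℕ) (hq : 1 ≤ q) (hqN : q ≤ N) (hb : 1 ≤ b)
    (hC : q * b * Nat.log 2 b ≤ C * N) (hc : c ≤ C * q) :
    Et N q b c + 1 ≤ (344 * C + 479) * N := by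
  have hl := log_Pb b hb
  have hg := log_Gb b
  set l := Nat.log 2 b with hldef
  have hqh : q * Hb N q ≤ 2 * N := by
    unfold Hb
    have h1 : q * ((N - 1) / q) ≤ N - 1 := Nat.mul_div_le _ _
    rw [mul_add]
    omega
  have hhN : Hb N q ≤ N := by
    unfold Hb
    have h1 : (N - 1) / q ≤ N - 1 := Nat.div_le_self _ _
    omega
  have h2 : b ≤ b * l + 1 := by
    rcases Nat.lt_or_ge b 2 with h3 | h3
    · omega
    · have h4 : 1 ≤ l := by
        rw [hldef]
        exact Nat.log_pos (by norm_num) h3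
      have h5 : b * 1 ≤ b * l := Nat.mul_le_mul_left _ h4
      omega
  have hqb : q * b ≤ (C + 1) * N := by
    calc q * b ≤ q * (b * l + 1) := Nat.mul_le_mul_left _ h2
      _ = q * b * l + q := by ring
      _ ≤ C * N + N := by omega
      _ = (C + 1) * N := by ring
  have hE : (3 * q + 4) * Eb b ≤ (336 * C + 294) * N := by
    unfold Eb
    calc (3 * q + 4) * ((4 * b + 2) * (Nat.log 2 (Pb b) + 1)) ≤ (7 * q) * ((6 * b) * (l + 7)) :=
          Nat.mul_le_mul (by omega) (Nat.mul_le_mul (by omega) (by omega))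
      _ = 42 * (q * b * l) + 294 * (q * b) := by ring
      _ ≤ 42 * (C * N) + 294 * ((C + 1) * N) := by gcongr
      _ = (336 * C + 294) * N := by ring
  have hF : (3 * q + 4) * Fb N q b ≤ 168 * N := by
    unfold Fb
    calc (3 * q + 4) * ((Hb N q + 1) * (Nat.log 2 (Gb b) + 1)) ≤ (7 * q) * ((Hb N q + 1) * 8) :=
          Nat.mul_le_mul (by omega) (Nat.mul_le_mul le_rfl (by omega))
      _ = 56 * (q * Hb N q) + 56 * q := by ring
      _ ≤ 56 * (2 * N) + 56 * N := by gcongr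
      _ = 168 * N := by ring
  have k2 : 4 * Nt N q ≤ 8 * N := by
    unfold Nt
    omega
  have k3 : 4 * b ≤ 4 * ((C + 1) * N) := by
    have h3 : b ≤ q * b := Nat.le_mul_of_pos_left _ (by omega)
    omega
  have k4 : c * (Hb N q + 2) ≤ 4 * (C * N) := by
    calc c * (Hb N q + 2) ≤ (C * q) * (Hb N q + 2) := Nat.mul_le_mul_right _ hc
      _ = C * (q * Hb N q) + C * (2 * q) := by ring
      _ ≤ C * (2 * N) + C * (2 * N) := by gcongr
      _ = 4 * (C * N) := by ring
  unfold Et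
  calc (3 * q + 4) * (Eb b + Fb N q b) + 4 * Nt N q + 4 * b + c * (Hb N q + 2) + 4 + 1 =
        (3 * q + 4) * Eb b + (3 * q + 4) * Fb N q b + 4 * Nt N q + 4 * b + c * (Hb N q + 2) + 5 := by
          ring
    _ ≤ (336 * C + 294) * N + 168 * N + 8 * N + 4 * ((C + 1) * N) + 4 * (C * N) + 5 * N := by omega
    _ = (344 * C + 479) * N := by ring

theorem gAS1 : GoalAS1 := by
  intro C
  refine ⟨2 * (344 * C + 479), by positivity, ?_⟩
  intro ok w N q b c hf hC hc
  obtain ⟨⟨_, _, hq, hqN, hb, _, _⟩, hlen⟩ := hf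
  have h1 := Et_le C N q b c hq hqN hb hC hc
  have hl2 : (0.6931471803 : ℝ) < Real.log 2 := Real.log_two_gt_d9
  have h2 : (N : ℝ) * Real.log 2 ≤ Real.log w.length := by
    rw [← Real.log_pow]
    refine Real.log_le_log (by positivity) ?_
    have h3 : 2 ^ N ≤ w.length :=
      (Nat.pow_le_pow_right (by norm_num) (Nat.le_add_right N b)).trans hlen.le
    exact_mod_cast h3
  have hN : (0 : ℝ) ≤ (N : ℝ) := Nat.cast_nonneg _
  have h3 : (N : ℝ) ≤ 2 * Real.log w.length := by nlinarith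
  have h4 : ((Et N q b c + 1 : ℕ) : ℝ) ≤ (344 * C + 479) * (N : ℝ) := by
    exact_mod_cast h1
  have hK : (0 : ℝ) ≤ 344 * C + 479 := by positivity
  calc ((Et N q b c + 1 : ℕ) : ℝ) ≤ (344 * C + 479) * (N : ℝ) := h4
    _ ≤ (344 * C + 479) * (2 * Real.log w.length) := mul_le_mul_of_nonneg_left h3 hK
    _ ≤ 2 * (344 * C + 479) * (Real.log w.length + 1) := by nlinarith

end Pool.Agent.Helper37.CTG
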