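import Pool.Agent.Helper53.CTG.Goals

/-!
# PROJECT CTG (MP_8b4d68_lc), packet EOK: the gadget of the machine
-/

namespace Pool.Agent.Helper37.CTG

open Pool.Agent.Helper53.CTG
open Pool.Agent.Helper1.TE (Gad app bitc seed wN vN addm CodeOK sym Good)
open Pool.Agent.Helper65.LinSpace (dig tab tab_lt dig_lt)

theorem ok9_of (c : ℕ → ℕ → ℕ) (m L R K : ℕ) (hK : 1 ≤ K) (hR : 1 ≤ R)
    (h1 : ∀ p < K, ∀ z : ℕ × ℕ, (gad9 c m L R K).V z →
      (gad9 c m L R K).un p (shl (gad9 c m L R K) (List.replicate 9 p)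
        ((gad9 c m L R K).hd p z)) = some z)
    (h2 : ∀ p < K, ∀ l : List ℕ, l.length = 9 → (∀ a ∈ l, a < K) → ∀ z : ℕ × ℕ,
      (gad9 c m L R K).V z →
      ((gad9 c m L R K).un p (shl (gad9 c m L R K) l
        ((gad9 c m L R K).hd p z))).isSome → ∀ a ∈ l, a = p) :
    OK9 (gad9 c m L R K) := by
  have hP : 0 < L + R := by omega
  have hadd : ∀ X y, addm m L R X y < (L + R) ^ (m + 2) := by
    intro X y
    refine tab_lt fun i _ => ?_
    split_ifs
    · exact Nat.mod_lt _ hP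
    · exact dig_lt hP _ _
  refine ⟨hK, ?_, ?_, ?_, h1, h2, ?_, ?_, ?_, ?_⟩
  · intro p _ z _
    exact hadd _ _
  · intro p _ z _
    exact tab_lt fun i _ => Nat.mod_lt _ hP
  · intro p _ z z' _ h
    simp only [gad9] at h ⊢
    split_ifs at h
    simp only [Option.some.injEq] at h
    rw [← h]
    exact hadd _ _
  · exact Nat.le_add_left 1 _
  · intro p _ z _
    show ((L + R) / R + 1) * z.2 + wN c m L R p z.1 / R < ((L + R) / R + 1) * (z.2 + 1)
    have h1 : wN c m L R p z.1 < L + R := Nat.mod_lt _ hP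
    have h2 : wN c m L R p z.1 / R ≤ (L + R) / R := Nat.div_le_div_right h1.le
    rw [Nat.mul_add, Nat.mul_one]
    omega
  · intro p z
    rfl
  · intro p z z' h
    simp only [gad9] at h ⊢
    split_ifs at h
    simp only [Option.some.injEq] at h
    rw [← h]

theorem gEOK : GoalEOK := by
  intro hCO hCL hCD hCE hCSD hSHN hGA hGC b W hb hW
  have hgood : Good b (seed b W) := hCSD hCE b W hb hW
  have hcode := hCO hCL hCD b (seed b W) 1 le_rfl hb hgood
  have e1 : sym 1 b (seed b W) = cC b W := by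
    funext p i
    unfold sym cC
    simp
  have e2 : (4 * b + 1 - 1) / 1 = 4 * b := by
    rw [Nat.div_one, Nat.add_sub_cancel]
  have e3 : 4 * b * (2 ^ 1 - 1) ^ 2 = 4 * b := by
    norm_num
  have e4 : (b + 4 * 1 - 1) / (4 * 1) = Rb b := by
    unfold Rb
    rfl
  rw [e1, e2, e3, e4] at hcode
  have e5 : 9 * (4 * b) = 36 * b := by ring
  have h1 := hGA hSHN (cC b W) (4 * b) (4 * b) (Rb b) (2 ^ b) hcode
  have h2 := hGC (cC b W) (4 * b) (4 * b) (Rb b) (2 ^ b) hcode
  rw [e5] at h1 h2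
  exact ok9_of _ _ _ _ _ Nat.one_le_two_pow hcode.hR h1 h2

end Pool.Agent.Helper37.CTG
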